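import Pool.Agent.Lib.MP_95b053_co.MAS.Prim
import Pool.Agent.Lib.MP_95b053_co.MAS.Quo
import Pool.Agent.Lib.MP_95b053_co.MAS.Ker
import Pool.Agent.Lib.MP_95b053_co.MAS.Fl
import Pool.Agent.Lib.MP_95b053_co.MAS.QNorm
import Pool.Agent.Lib.MP_95b053_co.MAS.Basis
import Pool.Agent.Lib.MP_95b053_co.MAS.Gro
import Pool.Agent.Lib.MP_95b053_co.MAS.Red1
import Pool.Agent.Lib.MP_95b053_co.MAS.Red2
import Pool.Agent.Lib.MP_95b053_co.MAS.Cmp
import Pool.Agent.Lib.MP_95b053_co.MAS.Comp
import Pool.Agent.Lib.MP_95b053_co.MAS.Ruz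
import Pool.Agent.Lib.MP_95b053_co.MAS.Cos
import Pool.Agent.Lib.MP_95b053_co.MAS.Den
import Pool.Agent.Lib.MP_95b053_co.MAS.Clu
import Pool.Agent.Lib.MP_95b053_co.MAS.Grow
import Pool.Agent.Lib.MP_95b053_co.MAS.Ape
import Pool.Agent.Lib.MP_95b053_co.MAS.Fre
import Pool.Agent.Lib.MP_95b053_co.MAS.Loc
import Pool.Agent.Lib.MP_95b053_co.MAS.Box
import Pool.Agent.Lib.MP_95b053_co.MAS.Prog
import Pool.Agent.Lib.MP_95b053_co.MAS.Start
import Pool.Agent.Lib.MP_95b053_co.MAS.Fin
import Pool.Agent.Lib.MP_95b053_co.MAS.MPair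
import Pool.Agent.Lib.MP_95b053_co.MAS.MBack
import Pool.Agent.Lib.MP_95b053_co.MAS.Small2
import Pool.Agent.Lib.MP_95b053_co.MAS.Main

/-!
# MP_95b053_co: rich lines whose points are related by masses

`P` is a set of `n` points of the plane, and `a i, b i, c i` (`i < K`) are arbitrary real functions (masses).
Suppose that at least `α n²` lines contain three different points `p, q, r` of `P` such that for some `i`
the point `r` with the mass `c i r ≠ 0` is the sum of the points `p, q` with the masses `a i p, b i q`: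
`(c i r) (r, 1) = (a i p) (p, 1) + (b i q) (q, 1)` in `ℝ³`.
If `n` is large in terms of `α` and `K`, then some line contains at least
`n ^ (1 / (200 log₂ (2 K / α)))` points of `P`.

The order of the exponent is exact, already for `K = 1` and constant masses
(`Pool.Agent.MAS.rSharp` in `Lib/MP_95b053_co/MAS/Sharp.lean`): for every `e > 0` and `d ≥ d₀(e)` there are for
all large `n` sets of `n` points with at least `2 ^ (-(1/2 + e) d) n²` lines which contain at least four of
the points, among them `p, q, r` with `3 r = p + 2 q`, and with at most `C n ^ (1/d)` points on every line.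

Proof: Balog-Szemerédi-Gowers gives a large set of vectors `(a i p) (p, 1)` with small doubling, and a
set `V` of `ℝ³` with `|V - V| ≤ K |V|` has at least `|V| ^ (1 / (1 + 8 log₂ K)) / C(K)` points on a line
(`S_Fin`; Bogolyubov, reduced bases of normed lattices, quotients and sublattices, compressions).
-/

set_option autoImplicit false

open Pool.Agent.MAS

namespace Pool.Agent.Results.MP_95b053_co.MassSystems

theorem result (K : ℕ) (α : ℝ) (hα : 0 < α) :
    ∃ n₀ : ℕ, ∀ (P : Finset (ℝ × ℝ)) (a b c : Fin K → ℝ × ℝ → ℝ), n₀ ≤ P.card →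
      α * (P.card : ℝ) ^ 2 ≤
        (({L : AffineSubspace ℝ (ℝ × ℝ) | Module.finrank ℝ L.direction = 1 ∧
          ∃ i : Fin K, ∃ p ∈ P, ∃ q ∈ P, ∃ r ∈ P, p ∈ L ∧ q ∈ L ∧ r ∈ L ∧ p ≠ q ∧ p ≠ r ∧ q ≠ r ∧
            c i r ≠ 0 ∧ c i r • r = a i p • p + b i q • q ∧ c i r = a i p + b i q}).ncard : ℝ) →
      ∃ L : AffineSubspace ℝ (ℝ × ℝ), Module.finrank ℝ L.direction = 1 ∧
        (P.card : ℝ) ^ (1 / (200 * Real.logb 2 (2 * K / α))) ≤
          (((P : Set (ℝ × ℝ)) ∩ (L : Set (ℝ × ℝ))).ncard : ℝ) := by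
  have hBasis : S_Basis := rBasis rPrim rQuo rQNorm
  have hRed1 : S_Red1 := rRed1 rPrim rQuo rQNorm rGro
  have hRed2 : S_Red2 := rRed2 rKer rGro
  have hCos : S_Cos := rCos (rComp rCmp)
  have hDen : S_Den := rDen rGro rRuz hCos
  have hGrow : S_Grow := rGrow rGro rRuz hDen rClu
  have hFre : S_Fre := rFre hRed1 hRed2 rFl hGrow (rApe rGro)
  have hProg : S_Prog := rProg hBasis rLoc rBox
  have hFin : S_Fin := rFin hFre (rStart hProg)
  exact Main_two rMPair rSmall2 rMBack hFin K α hα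

end Pool.Agent.Results.MP_95b053_co.MassSystems
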