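import Pool.Agent.Lib.MP_95b053_co.Q2.MainQ2
import Pool.Agent.Lib.MP_95b053_co.MAS.Prim
import Pool.Agent.Lib.MP_95b053_co.MAS.Quo
import Pool.Agent.Lib.MP_95b053_co.MAS.Ker
import Pool.Agent.Lib.MP_95b053_co.MAS.Fl
import Pool.Agent.Lib.MP_95b053_co.MAS.QNorm
import Pool.Agent.Lib.MP_95b053_co.MAS.Basis
import Pool.Agent.Lib.MP_95b053_co.MAS.Gro
import Pool.Agent.Lib.MP_95b053_co.MAS.Red1
import Pool.Agent.Lib.MP_95b053_co.MAS.Red2
import Pool.Agent.Lib.MP_95b053_co.MAS.Cmp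
import Pool.Agent.Lib.MP_95b053_co.MAS.Comp
import Pool.Agent.Lib.MP_95b053_co.MAS.Ruz
import Pool.Agent.Lib.MP_95b053_co.MAS.Cos
import Pool.Agent.Lib.MP_95b053_co.MAS.Den
import Pool.Agent.Lib.MP_95b053_co.MAS.Clu
import Pool.Agent.Lib.MP_95b053_co.MAS.Grow
import Pool.Agent.Lib.MP_95b053_co.MAS.Ape
import Pool.Agent.Lib.MP_95b053_co.MAS.Fre
import Pool.Agent.Lib.MP_95b053_co.MAS.Loc
import Pool.Agent.Lib.MP_95b053_co.MAS.Box
import Pool.Agent.Lib.MP_95b053_co.MAS.Prog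
import Pool.Agent.Lib.MP_95b053_co.MAS.Start
import Pool.Agent.Lib.MP_95b053_co.MAS.Fin
import Pool.Agent.Lib.MP_95b053_co.SAN.Cvx
import Pool.Agent.Lib.MP_95b053_co.SAN.Mom
import Pool.Agent.Lib.MP_95b053_co.SAN.CrS
import Pool.Agent.Lib.MP_95b053_co.SAN.Sup
import Pool.Agent.Lib.MP_95b053_co.SAN.Dsc
import Pool.Agent.Lib.MP_95b053_co.SAN.Cha
import Pool.Agent.Lib.MP_95b053_co.SAN.Tel
import Pool.Agent.Lib.MP_95b053_co.SAN.Inv
import Pool.Agent.Lib.MP_95b053_co.SAN.Four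
import Pool.Agent.Lib.MP_95b053_co.SAN.San
import Pool.Agent.Lib.MP_95b053_co.SAN.Pos2
import Pool.Agent.Lib.MP_95b053_co.SAN.Core2
import Pool.Agent.Lib.MP_95b053_co.SAN.AP2
import Pool.Agent.Lib.MP_95b053_co.SAN.Fin2
import Pool.Agent.Lib.MP_95b053_co.SAN.Qe

/-!
# MP_95b053_co: many complete quadrilaterals force many collinear points

A complete quadrilateral is a sextuple `q 0, .., q 5` of points: `q 0, q 1, q 2` are not collinear, and
`q 3, q 4, q 5` are collinear points of the three sides (`q 3` on `q 0 q 1`, `q 4` on `q 1 q 2`,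
`q 5` on `q 2 q 0`).

Let `P` be a set of `n` points of the plane and `0 < c ≤ 1`.

(1) Let `T` be a family of collinear 3-subsets of `P` such that any two points are in at most `k` members
of `T`. If at least `c n³` sextuples are complete quadrilaterals whose four lines
`{q 0, q 1, q 3}`, `{q 1, q 2, q 4}`, `{q 2, q 0, q 5}`, `{q 3, q 4, q 5}` are members of `T`, and `n` is large
in terms of `k` and `c`, then some line contains at least `n ^ (1 / (120000 log₂ (2 k / c)))` points of `P`.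

(2) If `n ≥ 2` and at least `c n³` sextuples of different points of `P` are complete quadrilaterals, then some
line contains at least `(c / 2) exp ((log n) ^ (1 / 5) / 2 ^ 24)` points of `P`.
-/

set_option autoImplicit false

open Pool.Agent.RR95 Pool.Agent.MAS

namespace Pool.Agent.Results.MP_95b053_co.Quadrilaterals

theorem result :
    (∀ (k : ℕ) (c : ℝ), 0 < c → c ≤ 1 → ∃ n₀ : ℕ,
      ∀ (P : Finset (ℝ × ℝ)) (T : Finset (Finset (ℝ × ℝ))), n₀ ≤ P.card →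
      (∀ t ∈ T, t ⊆ P ∧ t.card = 3 ∧ Collinear ℝ (t : Set (ℝ × ℝ))) →
      (∀ p q : ℝ × ℝ, p ≠ q → (T.filter fun t => p ∈ t ∧ q ∈ t).card ≤ k) →
      c * (P.card : ℝ) ^ 3 ≤
        ({q : Fin 6 → ℝ × ℝ | ¬ Collinear ℝ {q 0, q 1, q 2} ∧ {q 0, q 1, q 3} ∈ T ∧
          {q 1, q 2, q 4} ∈ T ∧ {q 2, q 0, q 5} ∈ T ∧ {q 3, q 4, q 5} ∈ T}.ncard : ℝ) →
      ∃ L : AffineSubspace ℝ (ℝ × ℝ), Module.finrank ℝ L.direction = 1 ∧
        (P.card : ℝ) ^ (1 / (120000 * Real.logb 2 (2 * k / c))) ≤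
          (((P : Set (ℝ × ℝ)) ∩ (L : Set (ℝ × ℝ))).ncard : ℝ)) ∧
    (∀ (P : Finset (ℝ × ℝ)) (c : ℝ), 2 ≤ P.card → 0 < c → c ≤ 1 →
      c * (P.card : ℝ) ^ 3 ≤
        ({q : Fin 6 → ℝ × ℝ | (∀ i, q i ∈ P) ∧ Function.Injective q ∧
          ¬ Collinear ℝ {q 0, q 1, q 2} ∧ Collinear ℝ {q 0, q 1, q 3} ∧
          Collinear ℝ {q 1, q 2, q 4} ∧ Collinear ℝ {q 2, q 0, q 5} ∧
          Collinear ℝ {q 3, q 4, q 5}}.ncard : ℝ) →
      ∃ L : AffineSubspace ℝ (ℝ × ℝ), Module.finrank ℝ L.direction = 1 ∧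
        c / 2 * Real.exp ((Real.log P.card) ^ ((1 : ℝ) / 5) / 2 ^ 24) ≤
          (((P : Set (ℝ × ℝ)) ∩ (L : Set (ℝ × ℝ))).ncard : ℝ)) := by
  have hBasis : S_Basis := rBasis rPrim rQuo rQNorm
  have hRed1 : S_Red1 := rRed1 rPrim rQuo rQNorm rGro
  have hRed2 : S_Red2 := rRed2 rKer rGro
  have hCos : S_Cos := rCos (rComp rCmp)
  have hDen : S_Den := rDen rGro rRuz hCos
  have hGrow : S_Grow := rGrow rGro rRuz hDen rClu
  have hFre : S_Fre := rFre hRed1 hRed2 rFl hGrow (rApe rGro)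
  have hProg : S_Prog := rProg hBasis rLoc rBox
  have hFin : S_Fin := rFin hFre (rStart hProg)
  have hSup : Pool.Agent.SAN.S_Sup :=
    Pool.Agent.SAN.rSup (Pool.Agent.SAN.rCrS (Pool.Agent.SAN.rMom Pool.Agent.SAN.rCvx))
  have hSan : Pool.Agent.SAN.S_San := Pool.Agent.SAN.rSan hSup
    (Pool.Agent.SAN.rCha Pool.Agent.SAN.rCvx Pool.Agent.SAN.rDsc) Pool.Agent.SAN.rTel
    (Pool.Agent.SAN.rFour Pool.Agent.SAN.rInv)
  have hAP : Pool.Agent.SAN.S_AP2 := Pool.Agent.SAN.rAP2 (Pool.Agent.SAN.rCore2 hSan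
    Pool.Agent.SAN.rPos2)
  exact ⟨fun k c hc hc1 => Pool.Agent.QQ95.mainQ2 hFin k c hc hc1,
    fun P c hP hc hc1 hq => Pool.Agent.QQ95.corQ3 (Pool.Agent.SAN.rFin2 hAP) P c hP hc hc1 hq⟩

end Pool.Agent.Results.MP_95b053_co.Quadrilaterals
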