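import Pool.Agent.Lib.MP_95b053_co.SAN.Cvx
import Pool.Agent.Lib.MP_95b053_co.SAN.Mom
import Pool.Agent.Lib.MP_95b053_co.SAN.CrS
import Pool.Agent.Lib.MP_95b053_co.SAN.Sup
import Pool.Agent.Lib.MP_95b053_co.SAN.Dsc
import Pool.Agent.Lib.MP_95b053_co.SAN.Cha
import Pool.Agent.Lib.MP_95b053_co.SAN.Tel
import Pool.Agent.Lib.MP_95b053_co.SAN.Inv
import Pool.Agent.Lib.MP_95b053_co.SAN.Four
import Pool.Agent.Lib.MP_95b053_co.SAN.San
import Pool.Agent.Lib.MP_95b053_co.SAN.Pos2
import Pool.Agent.Lib.MP_95b053_co.SAN.Core2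
import Pool.Agent.Lib.MP_95b053_co.SAN.AP2
import Pool.Agent.Lib.MP_95b053_co.SAN.Fin2
import Pool.Agent.Lib.MP_95b053_co.SAN.Uni
import Pool.Agent.Lib.MP_95b053_co.MAS.MPair
import Pool.Agent.Lib.MP_95b053_co.MAS.MBack
import Pool.Agent.Lib.MP_95b053_co.MAS.Small2

/-!
# MP_95b053_co: rich lines served by many systems of masses

`P` is a set of `n ≥ 1` points of the plane, and `a i, b i, c i` (`i < K`) are arbitrary real functions (masses).
Suppose that at least `α n²` lines contain three different points `p, q, r` of `P` such that for some `i`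
the point `r` with the mass `c i r ≠ 0` is the sum of the points `p, q` with the masses `a i p, b i q`:
`(c i r) (r, 1) = (a i p) (p, 1) + (b i q) (q, 1)` in `ℝ³`.
Then some line contains at least `(2 K / α) ^ (-3000) n ^ (1 / (2 ^ 60 (log₂ (2 K / α)) ^ 4))` points of `P`.

This is uniform: `K` and `α` may depend on `n`. If no line contains more than `M ≤ exp (c (log n) ^ (1/5))` points
of `P`, then every system of masses serves at most `n² exp (-c (log n) ^ (1/5))` lines.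

Proof: Balog-Szemerédi-Gowers gives a large set of vectors with small doubling, and Sanders' lemma (Croot-Sisask almost
periods, Chang's lemma; `S_San`, proved in `Lib/MP_95b053_co/SAN`) a long progression in `2V - 2V` (`S_AP2`).
-/

set_option autoImplicit false

open Pool.Agent.SAN

namespace Pool.Agent.Results.MP_95b053_co.UnboundedSystems

theorem result (K : ℕ) (α : ℝ) (P : Finset (ℝ × ℝ)) (a b c : Fin K → ℝ × ℝ → ℝ) (hP : P.Nonempty)
    (hα : 0 < α)
    (hlines : α * (P.card : ℝ) ^ 2 ≤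
      (({L : AffineSubspace ℝ (ℝ × ℝ) | Module.finrank ℝ L.direction = 1 ∧
        ∃ i : Fin K, ∃ p ∈ P, ∃ q ∈ P, ∃ r ∈ P, p ∈ L ∧ q ∈ L ∧ r ∈ L ∧ p ≠ q ∧ p ≠ r ∧ q ≠ r ∧
          c i r ≠ 0 ∧ c i r • r = a i p • p + b i q • q ∧ c i r = a i p + b i q}).ncard : ℝ)) :
    ∃ L : AffineSubspace ℝ (ℝ × ℝ), Module.finrank ℝ L.direction = 1 ∧
      (P.card : ℝ) ^ (1 / (2 ^ 60 * (Real.logb 2 (2 * K / α)) ^ 4)) ≤
        (2 * K / α) ^ 3000 * (((P : Set (ℝ × ℝ)) ∩ (L : Set (ℝ × ℝ))).ncard : ℝ) := by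
  have hSup : S_Sup := rSup (rCrS (rMom rCvx))
  have hSan : S_San := rSan hSup (rCha rCvx rDsc) rTel (rFour rInv)
  have hAP : S_AP2 := rAP2 (rCore2 hSan rPos2)
  exact rUni (rFin2 hAP) Pool.Agent.MAS.rMPair Pool.Agent.MAS.rMBack Pool.Agent.MAS.rSmall2
    K P a b c α hP hα hlines

end Pool.Agent.Results.MP_95b053_co.UnboundedSystems
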