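import Pool.Agent.Lib.MP_95b053_co.H.Main

/-!
# MP_95b053_co: an upper bound for `h_c(n)`

For every `e > 0` there is `d₀` such that for every integer `d ≥ d₀` there are `C` and `N` such that for every
`n ≥ N` some set of `n` points of the plane has at least `2 ^ (-(1/2 + e) d) n²` lines with at least four of its
points, and at most `C n ^ (1/d)` of its points on every line.  So `h_c(n) ≤ C n ^ (1/d)` for all
`c ≤ 2 ^ (-(1/2 + e) d)`, i.e. `h_c(n) ≤ n ^ (((log 2)/2 + o(1)) / log (1/c))` as `c → 0` (for `n ≥ N(c)`).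

Construction: `d = 2k`; `L` is the sublattice of index `2^k` of `ℤ^d` of all `x` with `x_{2i-1} + x_{2i}` even for
all `i`.  The set is a generic projection of four sets on four parallel hyperplanes of `ℝ^{d+1}`: two balls of
radius `r` of `ℤ^d` and two balls of radius a little larger than `√2 r` of `L`.  The points with vectors
`x, y, x + y, x - y` are on a line (harmonic quadruple), `x + y, x - y ∈ L` for the `2^(-k)` part of the pairs
with `x - y ∈ L`, and `x`, `y` are almost orthogonal for half of the pairs.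
(By a Brascamp-Lieb computation at all places the factor `2^(-1/2)` per dimension is the best possible for sets
made from one linear relation.)
-/

set_option autoImplicit false

open Pool.Agent.H95

namespace Pool.Agent.Results.MP_95b053_co.UpperBound

theorem result (e : ℝ) (he : 0 < e) :
    ∃ d₀ : ℕ, ∀ d : ℕ, d₀ ≤ d → ∃ C : ℝ, ∃ N : ℕ, ∀ n : ℕ, N ≤ n →
      ∃ P : Finset (ℝ × ℝ), P.card = n ∧
        (2 : ℝ) ^ (-((1 / 2 + e) * (d : ℝ))) * (n : ℝ) ^ 2 ≤
          ({L : AffineSubspace ℝ (ℝ × ℝ) | Module.finrank ℝ L.direction = 1 ∧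
            4 ≤ ((P : Set (ℝ × ℝ)) ∩ (L : Set (ℝ × ℝ))).ncard}.ncard : ℝ) ∧
        ∀ L : AffineSubspace ℝ (ℝ × ℝ), Module.finrank ℝ L.direction = 1 →
          ((((P : Set (ℝ × ℝ)) ∩ (L : Set (ℝ × ℝ))).ncard : ℕ) : ℝ) ≤
            C * (n : ℝ) ^ (1 / (d : ℝ)) := by
  have hlog2 : 0 < Real.log 2 := Real.log_pos (by norm_num)
  set ε : ℝ := min (e * Real.log 2) 1 with hεdef
  have hε : 0 < ε := lt_min (by positivity) one_pos
  have hε1 : ε ≤ 1 := min_le_right _ _
  have hε2 : ε ≤ e * Real.log 2 := min_le_left _ _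
  obtain ⟨k0, hk0⟩ := mainK ε hε hε1
  obtain ⟨m0, hm0⟩ := exists_nat_gt ((1 + e) / e)
  refine ⟨max (2 * k0 + 2) m0, fun d hd => ?_⟩
  have hd1 : 2 * k0 + 2 ≤ d := le_trans (le_max_left _ _) hd
  have hd2 : m0 ≤ d := le_trans (le_max_right _ _) hd
  -- `k` is half of `d`, rounded up
  set k : ℕ := (d + 1) / 2 with hk
  have hk1 : k0 ≤ k := by omega
  have hk2 : d ≤ 2 * k := by omega
  have hk3 : 2 * k ≤ d + 1 := by omega
  obtain ⟨C, hC, N, hN⟩ := hk0 k hk1
  have hdpos : (0 : ℝ) < d := by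
    have : 0 < d := by omega
    exact_mod_cast this
  have hkd : (d : ℝ) ≤ 2 * (k : ℝ) := by exact_mod_cast hk2
  have hkd' : 2 * (k : ℝ) ≤ d + 1 := by exact_mod_cast hk3
  -- densities
  have hdens : (2 : ℝ) ^ (-((1 / 2 + e) * (d : ℝ))) ≤ ((2 * (1 + ε)) ^ k)⁻¹ := by
    have h1 : 2 * (1 + ε) ≤ (2 : ℝ) ^ (1 + e) := by
      rw [Real.rpow_add (by norm_num), Real.rpow_one]
      have h2 : (2 : ℝ) ^ e = Real.exp (e * Real.log 2) := by
        rw [Real.rpow_def_of_pos (by norm_num), mul_comm]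
      rw [h2]
      have h3 := Real.add_one_le_exp (e * Real.log 2)
      linarith
    have h4 : (2 * (1 + ε)) ^ k ≤ (2 : ℝ) ^ ((1 + e) * (k : ℝ)) := by
      calc (2 * (1 + ε)) ^ k ≤ ((2 : ℝ) ^ (1 + e)) ^ k := pow_le_pow_left₀ (by positivity) h1 k
        _ = (2 : ℝ) ^ ((1 + e) * (k : ℝ)) := by
            rw [← Real.rpow_natCast, ← Real.rpow_mul (by norm_num)]
    have h5 : (1 + e) * (k : ℝ) ≤ (1 / 2 + e) * (d : ℝ) := by
      have h6 : (1 + e) / e ≤ (d : ℝ) := hm0.le.trans (by exact_mod_cast hd2)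
      rw [div_le_iff₀ he] at h6
      nlinarith
    rw [Real.rpow_neg (by norm_num)]
    refine inv_anti₀ (by positivity) (h4.trans ?_)
    exact Real.rpow_le_rpow_of_exponent_le (by norm_num) h5
  refine ⟨C, max N 1, fun n hn => ?_⟩
  obtain ⟨P, hP1, hP2, hP3⟩ := hN n (le_trans (le_max_left _ _) hn)
  have hn1 : (1 : ℝ) ≤ n := by
    have : 1 ≤ n := le_trans (le_max_right _ _) hn
    exact_mod_cast this
  refine ⟨P, hP1, (mul_le_mul_of_nonneg_right hdens (by positivity)).trans hP2, fun L hL => ?_⟩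
  refine (hP3 L hL).trans (mul_le_mul_of_nonneg_left ?_ hC)
  refine Real.rpow_le_rpow_of_exponent_le hn1 ?_
  exact one_div_le_one_div_of_le hdpos hkd

end Pool.Agent.Results.MP_95b053_co.UpperBound
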